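import Pool.Agent.H762R3.BoxSwitch2

/-!
# MP_2f48ba_co, Q1: permutations of dimension `d` without empty cubes of side `C (n log n)^(1/d)`
-/

set_option autoImplicit false

namespace Pool.Agent.Results.MP_2f48ba_co.CubesExist

open Filter H762R3.BoxSwitch

theorem transport (d n : ℕ) (G : Type) [Fintype G] (hG : Fintype.card G = n) (s0 : ℕ)
    (B : (Fin (d + 1) → G) → Bool)
    (hB : ∀ i γ, ∃! x, B (Function.update γ i x) = true)
    (hT : ∀ T : Fin (d + 1) → Finset G, (∀ j, (T j).card = s0) →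
      ∃ α, (∀ j, α j ∈ T j) ∧ B α = true) :
    ∃ A : (Fin (d + 1) → Fin n) → Fin 2,
      (∀ (i : Fin (d + 1)) (α : Fin (d + 1) → Fin n), ∃! x : Fin n, A (Function.update α i x) = 1) ∧
      ∀ T : Fin (d + 1) → Finset (Fin n), (∀ j, (T j).card = s0) →
        ∃ α, (∀ j, α j ∈ T j) ∧ A α = 1 := by
  classical
  let σ : Fin n ≃ G := (Fintype.equivFinOfCardEq hG).symm
  have hA : ∀ b : Bool, (if b = true then (1 : Fin 2) else 0) = 1 ↔ b = true := by decide
  refine ⟨fun α => if B (fun i => σ (α i)) = true then 1 else 0, ?_, ?_⟩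
  · intro i α
    obtain ⟨x, hx, hu⟩ := hB i (fun j => σ (α j))
    have hupd : ∀ y : Fin n, (fun j => σ (Function.update α i y j)) =
        Function.update (fun j => σ (α j)) i (σ y) := by
      intro y
      funext j
      by_cases hj : j = i
      · subst hj; simp
      · simp [Function.update_of_ne hj]
    refine ⟨σ.symm x, ?_, ?_⟩
    · show (if B (fun j => σ (Function.update α i (σ.symm x) j)) = true then (1 : Fin 2) else 0) = 1
      rw [hA, hupd, Equiv.apply_symm_apply]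
      exact hx
    · intro y hy
      replace hy : (if B (fun j => σ (Function.update α i y j)) = true then (1 : Fin 2) else 0) = 1 :=
        hy
      rw [hA, hupd] at hy
      rw [← hu _ hy, Equiv.symm_apply_apply]
  · intro T hc
    obtain ⟨α, hα, hBα⟩ := hT (fun i => (T i).map σ.toEmbedding) (by
      intro j; rw [Finset.card_map]; exact hc j)
    refine ⟨fun j => σ.symm (α j), ?_, ?_⟩
    · intro j
      obtain ⟨y, hy, hyα⟩ := Finset.mem_map.mp (hα j)
      show σ.symm (α j) ∈ T j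
      rw [← hyα]
      simpa using hy
    · show (if B (fun i => σ (σ.symm (α i))) = true then (1 : Fin 2) else 0) = 1
      rw [hA]
      simpa using hBα

/-- the construction for `n = 2^m` -/
theorem main (d m : ℕ) (hd : 2 ≤ d) (hm : 2 * d + 5 ≤ m) :
    ∃ A : (Fin (d + 1) → Fin (2 ^ m)) → Fin 2,
      (∀ (i : Fin (d + 1)) (α : Fin (d + 1) → Fin (2 ^ m)),
        ∃! x : Fin (2 ^ m), A (Function.update α i x) = 1) ∧
      ∀ (s : ℕ) (T : Fin (d + 1) → Finset (Fin (2 ^ m))), (∀ i, (T i).card = s) →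
        (∀ α : Fin (d + 1) → Fin (2 ^ m), (∀ i, α i ∈ T i) → A α = 0) →
        (s : ℝ) ≤ (16 * 4 ^ (d + 1) * (d + 2 : ℝ)) *
          (((2 ^ m : ℕ) : ℝ) * Real.log ((2 ^ m : ℕ) : ℝ)) ^ (1 / (d : ℝ)) := by
  classical
  set K : ℝ := 16 * 4 ^ (d + 1) * (d + 2 : ℝ) with hK
  have hK1 : 1 ≤ K := by
    rw [hK]
    have h1 : (1 : ℝ) ≤ 4 ^ (d + 1) := one_le_pow₀ (by norm_num)
    have h2 : (0 : ℝ) ≤ d := Nat.cast_nonneg _
    nlinarith
  have hcard : Fintype.card (Fin m → ZMod 2) = 2 ^ m := by simp [ZMod.card]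
  obtain ⟨t, ht⟩ : ∃ t, m * (d + 1) = 3 + 2 * (d + 1) + m + t := by
    have : 3 + 2 * (d + 1) + m ≤ m * (d + 1) := by nlinarith
    exact ⟨m * (d + 1) - (3 + 2 * (d + 1) + m), by omega⟩
  have hM : 8 * (4 ^ (d + 1) * Fintype.card (Fin m → ZMod 2)) * 2 ^ t =
      Fintype.card (Fin m → ZMod 2) ^ (d + 1) := by
    have h4 : (4 : ℕ) ^ (d + 1) = 2 ^ (2 * (d + 1)) := by rw [pow_mul]; norm_num
    rw [hcard, h4, ← pow_mul, ht, pow_add 2 (3 + 2 * (d + 1) + m) t,
      pow_add 2 (3 + 2 * (d + 1)) m, pow_add 2 3 (2 * (d + 1))]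
    ring
  have hn2 : 2 ≤ 2 ^ m := by
    calc 2 = 2 ^ 1 := (pow_one 2).symm
      _ ≤ 2 ^ m := Nat.pow_le_pow_right (by norm_num) (by omega)
  set n : ℕ := 2 ^ m with hn
  have hn1 : (1 : ℝ) < n := by exact_mod_cast hn2
  have hnpos : (0 : ℝ) < n := by linarith
  have hlog : 0 < Real.log n := Real.log_pos hn1
  have hL : 0 < (n : ℝ) * Real.log n := by positivity
  have hd0 : (0 : ℝ) < d := by exact_mod_cast (by omega : 0 < d)
  set y : ℝ := (K * ((n : ℝ) * Real.log n)) ^ (1 / (d : ℝ)) with hy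
  have hy0 : 0 ≤ y := by positivity
  have hyd : y ^ d = K * ((n : ℝ) * Real.log n) := by
    rw [hy, ← Real.rpow_natCast, ← Real.rpow_mul (by positivity), one_div,
      inv_mul_cancel₀ hd0.ne', Real.rpow_one]
  set s0 : ℕ := ⌊y⌋₊ + 1 with hs0
  have hs0y : y < s0 := by rw [hs0]; push_cast; exact Nat.lt_floor_add_one y
  have hbig : 16 * 4 ^ (d + 1) * (((d + 1 : ℕ) : ℝ) + 1) *
      (Fintype.card (Fin m → ZMod 2) * Real.log (Fintype.card (Fin m → ZMod 2))) <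
      (s0 : ℝ) ^ (d + 1 - 1) := by
    rw [hcard, Nat.add_sub_cancel]
    have h1 : 16 * 4 ^ (d + 1) * (((d + 1 : ℕ) : ℝ) + 1) * ((n : ℝ) * Real.log (n : ℝ)) = y ^ d := by
      rw [hyd, hK]; push_cast; ring
    rw [h1]
    exact pow_lt_pow_left₀ hs0y hy0 (by omega)
  obtain ⟨B, hB, hT⟩ := exists_cube_table (k := d + 1) (G := Fin m → ZMod 2)
    (by intro x; funext i; exact CharTwo.add_self_eq_zero _) (by omega) (by rw [hcard]; exact hn2)
    (2 ^ t) (by positivity) hM s0 hbig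
  obtain ⟨A, hA, hA2⟩ := transport d n (Fin m → ZMod 2) hcard s0 B hB hT
  refine ⟨A, hA, ?_⟩
  intro s T hTs hE
  have hlt : s < s0 := by
    by_contra hge
    push Not at hge
    have hsub : ∀ i, ∃ T' ⊆ T i, T'.card = s0 := by
      intro i
      exact Finset.exists_subset_card_eq (by rw [hTs i]; exact hge)
    choose T' hT' hT'c using hsub
    obtain ⟨α, hα, h1⟩ := hA2 T' hT'c
    have h2 := hE α (fun i => hT' i (hα i))
    rw [h1] at h2
    exact absurd h2 (by decide)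
  have h3 : (s : ℝ) ≤ y := by
    have : s ≤ ⌊y⌋₊ := by omega
    exact (Nat.le_floor_iff hy0).mp this
  refine le_trans h3 ?_
  rw [hy, Real.mul_rpow (by linarith) hL.le]
  apply mul_le_mul_of_nonneg_right _ (by positivity)
  calc K ^ (1 / (d : ℝ)) ≤ K ^ (1 : ℝ) := by
        apply Real.rpow_le_rpow_of_exponent_le hK1
        rw [div_le_one hd0]
        exact_mod_cast (by omega : 1 ≤ d)
    _ = K := Real.rpow_one K

/-- (1) For every `d ≥ 2` there is `C` such that for all `n = 2^m` with `m ≥ 2d+5` some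
`d`-dimensional permutation of order `n` has all its empty cubes of side at most
`C (n log n)^(1/d)`; (2) in particular Q1 has a positive answer for every `d ≥ 2`. -/
theorem result (d : ℕ) (hd : 2 ≤ d) :
    (∃ C : ℝ, 0 < C ∧ ∀ m : ℕ, 2 * d + 5 ≤ m →
      ∃ A : (Fin (d + 1) → Fin (2 ^ m)) → Fin 2,
        (∀ (i : Fin (d + 1)) (α : Fin (d + 1) → Fin (2 ^ m)),
          ∃! x : Fin (2 ^ m), A (Function.update α i x) = 1) ∧
        ∀ (s : ℕ) (T : Fin (d + 1) → Finset (Fin (2 ^ m))), (∀ i, (T i).card = s) →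
          (∀ α : Fin (d + 1) → Fin (2 ^ m), (∀ i, α i ∈ T i) → A α = 0) →
          (s : ℝ) ≤ C * (((2 ^ m : ℕ) : ℝ) * Real.log ((2 ^ m : ℕ) : ℝ)) ^ (1 / (d : ℝ))) ∧
    (∃ C : ℝ, 0 < C ∧ ∃ᶠ n : ℕ in atTop, ∃ A : (Fin (d + 1) → Fin n) → Fin 2,
        (∀ (i : Fin (d + 1)) (α : Fin (d + 1) → Fin n), ∃! x : Fin n, A (Function.update α i x) = 1) ∧
        ∀ (s : ℕ) (T : Fin (d + 1) → Finset (Fin n)),
          (∀ i, (T i).card = s) →
          (∀ α : Fin (d + 1) → Fin n, (∀ i, α i ∈ T i) → A α = 0) →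
          (s : ℝ) ≤ C * (n : ℝ) ^ (1 / (d : ℝ)) * (Real.log n) ^ C) := by
  have hKpos : (0 : ℝ) < 16 * 4 ^ (d + 1) * (d + 2 : ℝ) := by positivity
  refine ⟨⟨16 * 4 ^ (d + 1) * (d + 2 : ℝ), hKpos, fun m hm => main d m hd hm⟩, ?_⟩
  refine ⟨16 * 4 ^ (d + 1) * (d + 2 : ℝ), hKpos, ?_⟩
  rw [frequently_atTop]
  intro N
  set m : ℕ := max N (2 * d + 5) with hmdef
  have hmN : N ≤ m := le_max_left _ _
  have hmd : 2 * d + 5 ≤ m := le_max_right _ _
  refine ⟨2 ^ m, le_trans hmN (Nat.lt_two_pow_self).le, ?_⟩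
  obtain ⟨A, hA, hA2⟩ := main d m hd hmd
  refine ⟨A, hA, ?_⟩
  intro s T hTs hE
  refine le_trans (hA2 s T hTs hE) ?_
  have hd0 : (0 : ℝ) < d := by exact_mod_cast (by omega : 0 < d)
  have hd1 : (2 : ℝ) ≤ d := by exact_mod_cast hd
  set n : ℕ := 2 ^ m with hn
  have hlog1 : 1 ≤ Real.log (n : ℝ) := by
    have h1 : (n : ℝ) = (2 : ℝ) ^ m := by rw [hn]; push_cast; rfl
    rw [h1, Real.log_pow]
    have h2 := Real.log_two_gt_d9
    have h3 : (5 : ℝ) ≤ m := by exact_mod_cast (by omega : 5 ≤ m)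
    nlinarith
  have hn0 : (0 : ℝ) ≤ n := Nat.cast_nonneg _
  have hK1 : 1 / (d : ℝ) ≤ 16 * 4 ^ (d + 1) * (d + 2 : ℝ) := by
    have h4 : 1 / (d : ℝ) ≤ 1 := by
      rw [div_le_one hd0]; linarith
    have h5 : (1 : ℝ) ≤ 4 ^ (d + 1) := one_le_pow₀ (by norm_num)
    nlinarith
  generalize (16 * 4 ^ (d + 1) * (d + 2 : ℝ)) = K at hKpos hK1 ⊢
  rw [Real.mul_rpow hn0 (by linarith), ← mul_assoc]
  apply mul_le_mul_of_nonneg_left _ (by positivity)
  exact Real.rpow_le_rpow_of_exponent_le hlog1 hK1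

end Pool.Agent.Results.MP_2f48ba_co.CubesExist
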