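import Pool.Agent.H762R3.CubesAsy

/-!
# Every `d`-dimensional permutation has an empty cube of side `≫ (n log n)^{1/d}`

Let `d ≥ 2`.  Fix `d - 1` of the sides of the cube to be one set `S` of size `m`.  For a value `s` of the
last coordinate the ones of the array above `S × ... × S × [n] × {s}` meet at most `m^(d-1)` values of the
remaining coordinate.  So a random `m`-subset `T` of that coordinate misses all of them with probability
at least `C(n - m^(d-1), m) / C(n, m) ≈ exp (- m^d / n)`, and the expected number of values `s` which are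
not taken on `S × ... × S × T` is at least `n exp (- m^d / n)`, which is more than `m` for
`m = c (n log n)^(1/d)` as soon as `c^d < 1 - 1/d`.  Hence Q2 has a negative answer for every `d ≥ 2`.
-/

set_option autoImplicit false

namespace Pool.Agent.Results.MP_2f48ba_co.EmptyCubes

open Filter Pool.Agent.H762R3.Cubes

theorem result (d : ℕ) (hd : 2 ≤ d) :
    -- (1) for every `c` with `c ^ d < 1 - 1/d`, every `d`-dimensional permutation `A` of large order `n`
    -- has an empty cube of side `m ≥ c (n log n)^(1/d)`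
    (∀ c : ℝ, 0 < c → c ^ d < 1 - 1 / (d : ℝ) →
      ∀ᶠ n : ℕ in atTop, ∀ A : (Fin (d + 1) → Fin n) → Fin 2,
        (∀ (i : Fin (d + 1)) (α : Fin (d + 1) → Fin n), ∃! x : Fin n, A (Function.update α i x) = 1) →
        ∃ (m : ℕ) (T : Fin (d + 1) → Finset (Fin n)),
          (∀ i, (T i).card = m) ∧
          (∀ α : Fin (d + 1) → Fin n, (∀ i, α i ∈ T i) → A α = 0) ∧
          c * ((n : ℝ) * Real.log n) ^ (1 / (d : ℝ)) ≤ m) ∧
    -- (2) the assertion of Q2 fails for this (arbitrary) `d ≥ 2`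
    ¬ ∃ C : ℝ, 0 < C ∧ ∃ᶠ n : ℕ in atTop, ∃ A : (Fin (d + 1) → Fin n) → Fin 2,
        (∀ (i : Fin (d + 1)) (α : Fin (d + 1) → Fin n), ∃! x : Fin n, A (Function.update α i x) = 1) ∧
        ∀ (m : ℕ) (T : Fin (d + 1) → Finset (Fin n)),
          (∀ i, (T i).card = m) →
          (∀ α : Fin (d + 1) → Fin n, (∀ i, α i ∈ T i) → A α = 0) →
          (m : ℝ) ≤ C * (n : ℝ) ^ (1 / (d : ℝ)) := by
  have hpart1 : ∀ c : ℝ, 0 < c → c ^ d < 1 - 1 / (d : ℝ) →
      ∀ᶠ n : ℕ in atTop, ∀ A : (Fin (d + 1) → Fin n) → Fin 2,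
        (∀ (i : Fin (d + 1)) (α : Fin (d + 1) → Fin n), ∃! x : Fin n, A (Function.update α i x) = 1) →
        ∃ (m : ℕ) (T : Fin (d + 1) → Finset (Fin n)),
          (∀ i, (T i).card = m) ∧
          (∀ α : Fin (d + 1) → Fin n, (∀ i, α i ∈ T i) → A α = 0) ∧
          c * ((n : ℝ) * Real.log n) ^ (1 / (d : ℝ)) ≤ m := by
    intro c hc0 hc
    filter_upwards [asy hd hc0 hc] with n hn A hA
    obtain ⟨T, hT1, hT2⟩ := exists_cube (d := d) (by omega) hn.1 hn.2 A hA
    exact ⟨_, T, hT1, hT2, Nat.le_ceil _⟩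
  refine ⟨hpart1, ?_⟩
  rintro ⟨C, hC, hfreq⟩
  -- a small admissible constant
  have hd1 : (2 : ℝ) ≤ d := by exact_mod_cast hd
  have hhalf : ((1 / 2 : ℝ)) ^ d < 1 - 1 / (d : ℝ) := by
    have h1 : ((1 / 2 : ℝ)) ^ d ≤ (1 / 2) ^ 2 :=
      pow_le_pow_of_le_one (by norm_num) (by norm_num) hd
    have h2 : 1 / (d : ℝ) ≤ 1 / 2 := one_div_le_one_div_of_le (by norm_num) hd1
    norm_num at h1
    linarith
  have h := hpart1 (1 / 2) (by norm_num) hhalf
  have hd0 : (0 : ℝ) < 1 / (d : ℝ) := by positivity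
  -- `(log n)^(1/d)` tends to infinity
  have hlog : Tendsto (fun n : ℕ => (Real.log n) ^ (1 / (d : ℝ))) atTop atTop :=
    (tendsto_rpow_atTop hd0).comp (Real.tendsto_log_atTop.comp tendsto_natCast_atTop_atTop)
  obtain ⟨n, ⟨A, hA, hAm⟩, hn1, hn2, hn3⟩ := (hfreq.and_eventually
    (h.and ((hlog.eventually_gt_atTop (2 * C)).and (eventually_ge_atTop 2)))).exists
  obtain ⟨m, T, hT1, hT2, hm⟩ := hn1 A hA
  have h1 := hAm m T hT1 hT2
  have hn0 : (0 : ℝ) < n := by
    have : 0 < n := by omega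
    exact_mod_cast this
  have hlog0 : 0 ≤ Real.log (n : ℝ) := by
    apply Real.log_nonneg
    have : 1 ≤ n := by omega
    exact_mod_cast this
  rw [Real.mul_rpow hn0.le hlog0] at hm
  have hpos : 0 < (n : ℝ) ^ (1 / (d : ℝ)) := Real.rpow_pos_of_pos hn0 _
  nlinarith

end Pool.Agent.Results.MP_2f48ba_co.EmptyCubes
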